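import Mathlib
import Pool.Agent.Univ637.Main

/-!
# Good universal codes with words of linear length in free groups

For every `k ≥ 1` there are at most `3048 k` elements of the free group of rank `k`, all of length
at most `k`, such that every proper subgroup misses at least a proportion `1 / 512` of them.
-/

set_option autoImplicit false

namespace Pool.Agent.Results.MP_6f9718_al.LinearLengthCode

/-- The detection probability of the test tuple `A` of elements of the free group with basis
`Fin k`: the infimum, over all proper subgroups `H`, of the proportion of the entries of `A` which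
are not in `H`. -/
noncomputable def detection {k n : ℕ} (A : Fin n → FreeGroup (Fin k)) : ℝ :=
  ⨅ H : {H : Subgroup (FreeGroup (Fin k)) // H ≠ ⊤},
    (Nat.card {i : Fin n // A i ∉ H.1} : ℝ) / n

/-- `(A k)` is a good universal code: the number of entries of `A k` is positive and `O(k)`, and
the detection probabilities are bounded below by a positive constant. -/
def IsGoodUniversalCode (n : ℕ → ℕ) (A : (k : ℕ) → Fin (n k) → FreeGroup (Fin k)) : Prop :=
  ∃ C c : ℝ, 0 < c ∧ ∀ k : ℕ, 1 ≤ k → 0 < n k ∧ (n k : ℝ) ≤ C * k ∧ c ≤ detection (A k)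

/-- The words of the code have linear length. -/
def HasLinearLength (n : ℕ → ℕ) (A : (k : ℕ) → Fin (n k) → FreeGroup (Fin k)) : Prop :=
  ∃ C : ℝ, ∀ k : ℕ, 1 ≤ k → ∀ i : Fin (n k), ((A k i).norm : ℝ) ≤ C * k

/-- There is a good universal code with words of linear length; moreover one can have at most
`3048 k` words, of length at most `k`, with detection probability at least `1 / 512`. -/
theorem result :
    ∃ (n : ℕ → ℕ) (A : (k : ℕ) → Fin (n k) → FreeGroup (Fin k)),
      IsGoodUniversalCode n A ∧ HasLinearLength n A ∧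
      ∀ k : ℕ, 1 ≤ k → 0 < n k ∧ n k ≤ 3048 * k ∧ (∀ i, (A k i).norm ≤ k) ∧
        1 / 512 ≤ detection (A k) := by
  classical
  have key : ∀ k : ℕ, ∃ (n : ℕ) (w : Fin n → FreeGroup (Fin k)), 1 ≤ k →
      0 < n ∧ n ≤ 3048 * k ∧ (∀ i, (w i).norm ≤ k) ∧ 1 / 512 ≤ detection w := by
    intro k
    rcases Nat.eq_zero_or_pos k with hk | hk
    · exact ⟨0, fun i => i.elim0, fun h => by omega⟩
    · obtain ⟨n, w, h0, h1, h2, h3⟩ := Univ637.exists_code hk
      refine ⟨n, w, fun _ => ⟨h0, h1, h2, ?_⟩⟩
      have hn : (0:ℝ) < n := by exact_mod_cast h0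
      have hne : (⊥ : Subgroup (FreeGroup (Fin k))) ≠ ⊤ := by
        intro h
        have h4 : FreeGroup.of (⟨0, hk⟩ : Fin k) ∈ (⊥ : Subgroup (FreeGroup (Fin k))) := by
          rw [h]; exact Subgroup.mem_top _
        rw [Subgroup.mem_bot] at h4
        exact FreeGroup.of_ne_one _ h4
      have : Nonempty {H : Subgroup (FreeGroup (Fin k)) // H ≠ ⊤} := ⟨⟨⊥, hne⟩⟩
      refine le_ciInf ?_
      rintro ⟨H, hH⟩
      have h4 := h3 H hH
      rw [le_div_iff₀ hn]
      have h5 : Nat.card {i : Fin n // w i ∉ H} =
          ((Finset.univ : Finset (Fin n)).filter (fun i => w i ∉ H)).card := by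
        rw [Nat.card_eq_fintype_card, Fintype.card_subtype]
      rw [h5]
      have h6 : (n:ℝ) ≤ 512 *
          (((Finset.univ : Finset (Fin n)).filter (fun i => w i ∉ H)).card : ℝ) := by
        exact_mod_cast h4
      linarith
  choose n A h using key
  refine ⟨n, A, ⟨3048, 1 / 512, by norm_num, fun k hk => ?_⟩, ⟨1, fun k hk i => ?_⟩, fun k hk => ?_⟩
  · exact ⟨(h k hk).1, by exact_mod_cast (h k hk).2.1, (h k hk).2.2.2⟩
  · rw [one_mul]
    exact_mod_cast (h k hk).2.2.1 i
  · exact h k hk

end Pool.Agent.Results.MP_6f9718_al.LinearLengthCode
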